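import Pool.Agent.R619.TreeFG

/-!
# Finitely generated isotypic algebras that are not isomorphic

The signature has unary operations `t`, `c` and `s l`, where `l` runs over the labels (a label is
one of two colours together with a natural number). The algebra `Nd ℕ succ col` is a tree: `t` is
the parent, `s l` is the child with label `l`; it is generated by one node `a`, and the nodes
`a, t a, t (t a), ...` are the nodes which have no label; the node `t^j a` has the colour `col j`.
The operation `c` is the identity on the nodes of the first colour and the parent for the nodes of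
the second colour. Since a formula involves only finitely many labels, and since over such a finite
set of labels `a` looks like a child of `t a` with another label of the same colour, the subalgebra
generated by `t a` is an elementary substructure. For `col` alternating, the algebra and this
subalgebra are isotypic and not isomorphic.
-/

set_option autoImplicit false

namespace Pool.Agent.Results.MP_c850b7_lc.IsotypicNotIsomorphic

open FirstOrder FirstOrder.Language Pool.Agent.R619.Tree

/-- Alternating colours of the chain. -/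
def c0 (j : ℕ) : Bool := decide (j % 2 = 0)

/-- Alternating colours of the chain, shifted. -/
def c1 (j : ℕ) : Bool := c0 (j + 1)

theorem c1_succ : (fun j => c1 (j + 1)) = c0 := by
  funext j
  simp only [c1, c0]
  congr 1
  simp only [eq_iff_iff]
  omega

theorem not_iso : IsEmpty (Nd ℕ Nat.succ c0 ≃[L] Nd ℕ Nat.succ c1) := by
  refine ⟨fun e => ?_⟩
  have ht : ∀ x, e x.par = (e x).par := fun x => e.map_fun (n := 1) Fn.t (fun _ => x)
  have hc : ∀ x, e x.cop = (e x).cop := fun x => e.map_fun (n := 1) Fn.c (fun _ => x)
  have hs : ∀ l x, e (x.chd l) = (e x).chd l := fun l x => e.map_fun (n := 1) (Fn.s l) (fun _ => x)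
  -- nodes with a label are mapped to nodes with a label and conversely
  have hw : ∀ x, (e x).w = [] ↔ x.w = [] := by
    intro x
    constructor
    · intro h
      by_contra hx
      obtain ⟨w, l, hwl⟩ : ∃ w l, x.w = w ++ [l] :=
        ⟨x.w.dropLast, x.w.getLast hx, (List.dropLast_append_getLast hx).symm⟩
      have hx' : x = (⟨w, x.j⟩ : Nd ℕ Nat.succ c0).chd l := Nd.ext' hwl rfl
      rw [hx', hs] at h
      simp [Nd.chd] at h
    · intro h
      by_contra hx
      obtain ⟨w, l, hwl⟩ : ∃ w l, (e x).w = w ++ [l] :=
        ⟨(e x).w.dropLast, (e x).w.getLast hx, (List.dropLast_append_getLast hx).symm⟩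
      obtain ⟨y, hy⟩ := e.surjective (⟨w, (e x).j⟩ : Nd ℕ Nat.succ c1)
      have hx' : e x = e (y.chd l) := by
        rw [hs, hy]
        exact Nd.ext' hwl rfl
      have := e.injective hx'
      rw [this] at h
      simp [Nd.chd] at h
  -- the generator is mapped to the generator
  have hpar : ∀ j : ℕ, (⟨[], j⟩ : Nd ℕ Nat.succ c0).par = ⟨[], j + 1⟩ := fun j => par_nil j
  have hj : ∀ j : ℕ, (e ⟨[], j⟩).j = (e ⟨[], 0⟩).j + j := by
    intro j
    induction j with
    | zero => rfl
    | succ j ih =>
      rw [← hpar j, ht]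
      have h1 : (e ⟨[], j⟩).w = [] := (hw _).2 rfl
      simp only [Nd.par, h1, if_true]
      change Nat.succ (e ⟨[], j⟩).j = _
      rw [ih]
      omega
  obtain ⟨y, hy⟩ := e.surjective (⟨[], 0⟩ : Nd ℕ Nat.succ c1)
  have hyw : y.w = [] := (hw y).1 (by rw [hy])
  have hy0 : y = ⟨[], y.j⟩ := Nd.ext' hyw rfl
  have h0 : (e ⟨[], 0⟩).j = 0 := by
    have := hj y.j
    rw [← hy0, hy] at this
    simp only at this
    omega
  have he0 : e ⟨[], 0⟩ = ⟨[], 0⟩ := Nd.ext' ((hw _).2 rfl) h0
  have h2 := hc ⟨[], 0⟩
  have h3 : (⟨[], 0⟩ : Nd ℕ Nat.succ c0).cop = ⟨[], 0⟩ := rfl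
  have h4 : (⟨[], 0⟩ : Nd ℕ Nat.succ c1).cop = ⟨[], 1⟩ := rfl
  rw [h3, he0, h4] at h2
  simp at h2

/-- There are finitely generated algebras `A` and `B` of the same signature (algebras of the variety
of all algebras of this signature) which are isotypic and not isomorphic. -/
theorem result : ∃ (L : FirstOrder.Language.{0, 0}) (_ : ∀ n, IsEmpty (L.Relations n))
    (A B : Type) (_ : L.Structure A) (_ : L.Structure B),
    Structure.FG L A ∧ Structure.FG L B ∧ Isotypic L A B ∧ IsEmpty (A ≃[L] B) := by
  refine ⟨Pool.Agent.R619.Tree.L, fun n => inferInstance, Nd ℕ Nat.succ c0, Nd ℕ Nat.succ c1,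
    inferInstance, inferInstance, nd_fg _, nd_fg _, ?_, not_iso⟩
  intro n
  constructor
  · intro a
    have h : ∀ col : ℕ → Bool, col = c0 → ∀ a : Fin n → Nd ℕ Nat.succ c0,
        ∃ b : Fin n → Nd ℕ Nat.succ col, SameType Pool.Agent.R619.Tree.L a b := by
      rintro _ rfl a
      exact ⟨a, fun φ => Iff.rfl⟩
    obtain ⟨a', ha'⟩ := h _ c1_succ a
    exact ⟨sh c1 ∘ a', fun φ => (ha' φ).trans (sh_elementary c1 φ a').symm⟩
  · intro b
    exact ⟨sh c0 ∘ b, fun φ => sh_elementary c0 φ b⟩

end Pool.Agent.Results.MP_c850b7_lc.IsotypicNotIsomorphic
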